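import Mathlib

set_option autoImplicit false

namespace Pool.Agent.DefZero

variable {G : Type*} [Group G]

/-- An element commuting with two generators is central. -/
lemma mem_center_of_gen {a b : G} (hgen : Subgroup.closure {a, b} = ⊤) {c : G}
    (ha : Commute c a) (hb : Commute c b) : c ∈ Subgroup.center G := by
  have h : Subgroup.closure {a, b} ≤ Subgroup.centralizer {c} := by
    rw [Subgroup.closure_le]
    intro x hx
    rw [SetLike.mem_coe, Subgroup.mem_centralizer_singleton_iff]
    rcases hx with rfl | hx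
    · exact ha.eq.symm
    · rw [Set.mem_singleton_iff] at hx
      subst hx
      exact hb.eq.symm
  rw [hgen] at h
  rw [Subgroup.mem_center_iff]
  intro g
  have := h (Subgroup.mem_top g)
  rw [Subgroup.mem_centralizer_singleton_iff] at this
  exact this

section braid

variable {a b : G} (hbr : a * b * a = b * a * b)
include hbr

lemma semi_ab : SemiconjBy (a * b * a) a b := by
  unfold SemiconjBy
  calc a * b * a * a = (b * a * b) * a := by rw [hbr]
    _ = b * (a * b * a) := by group

lemma semi_ba : SemiconjBy (a * b * a) b a := by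
  unfold SemiconjBy
  calc a * b * a * b = a * (b * a * b) := by group
    _ = a * (a * b * a) := by rw [hbr]

lemma commD_a : Commute ((a * b * a) ^ 2) a := by
  have := (semi_ba hbr).mul_left (semi_ab hbr)
  rw [← pow_two] at this
  exact this

lemma commD_b : Commute ((a * b * a) ^ 2) b := by
  have := (semi_ab hbr).mul_left (semi_ba hbr)
  rw [← pow_two] at this
  exact this

/-- `b a⁴ b⁻¹ = a⁻¹ b⁴ a` -/
lemma braid_four : b * a ^ 4 * b⁻¹ = a⁻¹ * b ^ 4 * a := by
  have h1 : b * a * b⁻¹ = a⁻¹ * b * a := by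
    have : b * a = a⁻¹ * (a * b * a) := by group
    calc b * a * b⁻¹ = a⁻¹ * (a * b * a) * b⁻¹ := by rw [this]
      _ = a⁻¹ * (b * a * b) * b⁻¹ := by rw [hbr]
      _ = a⁻¹ * b * a := by group
  have h2 : b * a ^ 4 * b⁻¹ = (b * a * b⁻¹) ^ 4 := by
    rw [conj_pow]
  have h3 : a⁻¹ * b ^ 4 * a = (a⁻¹ * b * a) ^ 4 := by
    have := conj_pow (i := 4) (a := a⁻¹) (b := b)
    rw [inv_inv] at this
    rw [this]
  rw [h2, h3, h1]

variable {t : ℕ} (hrel : (b ^ 4 * a ^ (4 * t + 1)) ^ 2 * a ^ (8 * t + 1) = (a * b * a) ^ 2)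
include hrel

lemma comm_c_b4 : Commute (a ^ (8 * t + 1)) (b ^ 4) := by
  set w := b ^ 4 * a ^ (4 * t + 1) with hw
  have hc : a ^ (8 * t + 1) = (w ^ 2)⁻¹ * (a * b * a) ^ 2 := by
    rw [← hrel]; group
  have hDw : Commute ((a * b * a) ^ 2) w := by
    apply Commute.mul_right
    · exact (commD_b hbr).pow_right 4
    · exact (commD_a hbr).pow_right _
  have h1 : Commute (a ^ (8 * t + 1)) w := by
    rw [hc]
    apply Commute.mul_left
    · apply Commute.inv_left
      exact (Commute.refl w).pow_left 2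
    · exact hDw
  have h2 : Commute (a ^ (8 * t + 1)) (w * (a ^ (4 * t + 1))⁻¹) := by
    apply h1.mul_right
    apply Commute.inv_right
    exact Commute.pow_pow (Commute.refl a) _ _
  have h3 : w * (a ^ (4 * t + 1))⁻¹ = b ^ 4 := by rw [hw]; group
  rwa [h3] at h2

lemma comm_c_b : Commute (a ^ (8 * t + 1)) b := by
  set c := a ^ (8 * t + 1) with hc
  have hca : Commute c a := (Commute.refl a).pow_left _
  have hcb4 : Commute c (b ^ 4) := comm_c_b4 hbr hrel
  have hcz : Commute c ((a * b * a) ^ 2) := ((commD_a hbr).symm).pow_left _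
  -- conjugated relation
  have hrel' : (a ^ 4 * b ^ (4 * t + 1)) ^ 2 * b ^ (8 * t + 1) = (a * b * a) ^ 2 := by
    have h1 : SemiconjBy (a * b * a) ((b ^ 4 * a ^ (4 * t + 1)) ^ 2 * a ^ (8 * t + 1))
        ((a ^ 4 * b ^ (4 * t + 1)) ^ 2 * b ^ (8 * t + 1)) := by
      apply SemiconjBy.mul_right
      · apply SemiconjBy.pow_right
        apply SemiconjBy.mul_right
        · exact (semi_ba hbr).pow_right _
        · exact (semi_ab hbr).pow_right _
      · exact (semi_ab hbr).pow_right _
    rw [hrel] at h1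
    have h2 : SemiconjBy (a * b * a) ((a * b * a) ^ 2) ((a * b * a) ^ 2) :=
      (Commute.refl (a * b * a)).pow_right 2
    have h3 := h1.eq.symm.trans h2.eq
    exact mul_right_cancel h3
  -- the element b^(12t+3)
  have key : b ^ (12 * t + 3) =
      (b * a ^ 4 * b⁻¹)⁻¹ * ((b ^ 4) ^ t)⁻¹ * (a ^ 4)⁻¹ * (a * b * a) ^ 2 * 1 := by
    rw [← hrel']
    have e1 : b ^ (4 * t + 1) = (b ^ 4) ^ t * b := by rw [← pow_mul, pow_succ]
    have e2 : b ^ (12 * t + 3) = b * b ^ (4 * t + 1) * b ^ (8 * t + 1) := by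
      rw [← pow_succ', ← pow_add]; congr 1; ring
    rw [pow_two (a ^ 4 * b ^ (4 * t + 1)), e2]
    nth_rewrite 3 [e1]
    nth_rewrite 2 [e1]
    nth_rewrite 1 [e1]
    group
  have hbab : Commute c (b * a ^ 4 * b⁻¹) := by
    rw [braid_four hbr]
    exact (hca.inv_right.mul_right hcb4).mul_right hca
  have h12 : Commute c (b ^ (12 * t + 3)) := by
    rw [key]
    refine ((((hbab.inv_right).mul_right ?_).mul_right ?_).mul_right hcz).mul_right (Commute.one_right c)
    · exact (hcb4.pow_right t).inv_right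
    · exact (hca.pow_right 4).inv_right
  have h3 : Commute c (b ^ 3) := by
    have e : b ^ 3 = ((b ^ 4) ^ (3 * t))⁻¹ * b ^ (12 * t + 3) := by
      rw [← pow_mul, show 12 * t + 3 = 4 * (3 * t) + 3 by ring, pow_add]
      group
    rw [e]
    exact ((hcb4.pow_right _).inv_right).mul_right h12
  have e : b = b ^ 4 * (b ^ 3)⁻¹ := by group
  rw [e]
  exact hcb4.mul_right h3.inv_right

lemma bm_eq_am : b ^ (8 * t + 1) = a ^ (8 * t + 1) := by
  have hcb := comm_c_b hbr hrel
  have hca : Commute (a ^ (8 * t + 1)) a := (Commute.refl a).pow_left _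
  have hcD : Commute (a ^ (8 * t + 1)) (a * b * a) := (hca.mul_right hcb).mul_right hca
  have h := ((semi_ab hbr).pow_right (8 * t + 1)).eq
  rw [← hcD.eq] at h
  exact (mul_right_cancel h).symm

end braid

end Pool.Agent.DefZero
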