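import Mathlib

set_option autoImplicit false

namespace Pool.Agent.DefZero

lemma four_pow_three_pow (n : ℕ) :
    ∃ v : ℤ, (4 : ℤ) ^ (3 ^ n) = 1 + 3 ^ (n + 1) * (1 + 3 * v) := by
  induction n with
  | zero => exact ⟨0, by norm_num⟩
  | succ n ih =>
    obtain ⟨v, hv⟩ := ih
    refine ⟨v + 3 ^ n * (1 + 3 * v) ^ 2 + 3 ^ (2 * n) * (1 + 3 * v) ^ 3, ?_⟩
    rw [pow_succ 3 n, pow_mul, hv]
    ring

lemma four_pow_mod (j : ℕ) : ∃ w : ℤ, (4 : ℤ) ^ j = 1 + 3 * w := by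
  induction j with
  | zero => exact ⟨0, by norm_num⟩
  | succ n ih =>
    obtain ⟨w, hw⟩ := ih
    exact ⟨4 * w + 1, by rw [pow_succ, hw]; ring⟩

lemma exists_four_pow (k : ℕ) (i : ℤ) (hi : (3 : ℤ) ∣ i - 1) :
    ∃ j : ℕ, (3 : ℤ) ^ k ∣ i - 4 ^ j := by
  induction k with
  | zero => exact ⟨0, by simp⟩
  | succ k ih =>
    rcases Nat.eq_zero_or_pos k with hk | hk
    · subst hk
      exact ⟨0, by simpa using hi⟩
    · obtain ⟨n, rfl⟩ : ∃ n, k = n + 1 := ⟨k - 1, by omega⟩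
      obtain ⟨j, x, hx⟩ := ih
      obtain ⟨w, hw⟩ := four_pow_mod j
      obtain ⟨v, hv⟩ := four_pow_three_pow n
      have hx3 : x % 3 = 0 ∨ x % 3 = 1 ∨ x % 3 = 2 := by omega
      have hdm := Int.mul_ediv_add_emod x 3
      set y := x / 3 with hy
      rcases hx3 with h | h | h
      · rw [h] at hdm
        refine ⟨j, y, ?_⟩
        rw [hx, ← hdm]; ring
      · rw [h] at hdm
        refine ⟨j + 3 ^ n, y - w - v - 3 * w * v, ?_⟩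
        have e1 : i = 4 ^ j + 3 ^ (n + 1) * (3 * y + 1) := by rw [hdm]; linarith
        have e2 : (4 : ℤ) ^ (j + 3 ^ n) = 4 ^ j * 4 ^ (3 ^ n) := pow_add _ _ _
        rw [e2, e1, hv, hw]
        ring
      · rw [h] at hdm
        refine ⟨j + 3 ^ n + 3 ^ n, y - 2 * w - 2 * v - 6 * w * v
          - 3 ^ n * (1 + 3 * w) * (1 + 3 * v) ^ 2, ?_⟩
        have e1 : i = 4 ^ j + 3 ^ (n + 1) * (3 * y + 2) := by rw [hdm]; linarith
        have e2 : (4 : ℤ) ^ (j + 3 ^ n + 3 ^ n) = 4 ^ j * 4 ^ (3 ^ n) * 4 ^ (3 ^ n) := by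
          rw [pow_add _ (j + 3 ^ n), pow_add _ j]
        rw [e2, e1, hv, hw]
        ring

lemma exists_inv_four_pow (k j : ℕ) :
    ∃ u : ℤ, (3 : ℤ) ^ k ∣ 4 ^ j * u - 1 ∧ (3 : ℤ) ∣ u - 1 := by
  have hc : IsCoprime ((4 : ℤ) ^ j) (3 ^ (k + 1)) := by
    apply IsCoprime.pow
    exact ⟨1, -1, by norm_num⟩
  obtain ⟨u, v, huv⟩ := hc
  obtain ⟨w, hw⟩ := four_pow_mod j
  refine ⟨u, ⟨-(3 * v), ?_⟩, ⟨-(u * w + 3 ^ k * v), ?_⟩⟩
  · have : 4 ^ j * u = 1 - v * 3 ^ (k + 1) := by linarith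
    rw [this]; ring
  · rw [hw] at huv
    have : u = 1 - 3 * (u * w) - v * 3 ^ (k + 1) := by linarith
    linear_combination this

lemma exists_signed_four_pow (k : ℕ) (i : ℤ) (hi : ¬ (3 : ℤ) ∣ i) :
    ∃ ε : ℤ, (ε = 1 ∨ ε = -1) ∧ (3 : ℤ) ∣ i - ε ∧ ∃ j : ℕ, (3 : ℤ) ^ k ∣ i - ε * 4 ^ j := by
  have h : (3 : ℤ) ∣ i - 1 ∨ (3 : ℤ) ∣ i + 1 := by omega
  rcases h with h | h
  · obtain ⟨j, hj⟩ := exists_four_pow k i h
    exact ⟨1, Or.inl rfl, h, j, by simpa using hj⟩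
  · obtain ⟨j, hj⟩ := exists_four_pow k (-i) (by omega)
    refine ⟨-1, Or.inr rfl, by omega, j, ?_⟩
    obtain ⟨x, hx⟩ := hj
    exact ⟨-x, by linear_combination -hx⟩

end Pool.Agent.DefZero
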