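import Pool.Agent.DefZero.Delta
import Pool.Agent.DefZero.Numbers

set_option autoImplicit false

namespace Pool.Agent.DefZero

/-- The relations satisfied by the quotient of our group by its centre. -/
structure Rel {Q : Type*} [Group Q] (a b : Q) (t k : ℕ) : Prop where
  hgen : Subgroup.closure {a, b} = ⊤
  hk : 1 ≤ k
  hm : 8 * t + 1 = 3 ^ k
  ha : a ^ (8 * t + 1) = 1
  hb : b ^ (8 * t + 1) = 1
  hbr : a * b * a = b * a * b
  hD : (a * b * a) * (a * b * a) = 1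
  hT : (a ^ (4 * t + 1) * b ^ 2 * a ^ (4 * t + 1)) * (a ^ (4 * t + 1) * b ^ 2 * a ^ (4 * t + 1)) = 1
  hδ : (a ^ (4 * t + 1) * b ^ 2) ^ 3 = 1

variable {Q : Type*} [Group Q] {a b : Q} {t k : ℕ}

namespace Rel

/-- the element `U` -/
def U (a b : Q) (t : ℕ) : Q := (a * b * a) * (a ^ (4 * t + 1) * b ^ 2 * a ^ (4 * t + 1))

variable (h : Rel a b t k)
include h

lemma Dinv : (a * b * a)⁻¹ = a * b * a := inv_eq_of_mul_eq_one_left h.hD

lemma DaD : (a * b * a) * a * (a * b * a) = a⁻¹ * (a * b * a) * a⁻¹ := by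
  have h1 : (a * b * a) * a = b * (a * b * a) := semi_ab h.hbr
  rw [h1, mul_assoc b, h.hD]
  group

lemma DaD' : (a * b * a) * a⁻¹ * (a * b * a) = a * (a * b * a) * a := by
  have hD := h.Dinv
  have h0 := h.DaD
  generalize a * b * a = D at hD h0 ⊢
  have h1 : (D * a * D)⁻¹ = (a⁻¹ * D * a⁻¹)⁻¹ := by rw [h0]
  rw [mul_inv_rev, mul_inv_rev, mul_inv_rev, mul_inv_rev, hD, inv_inv] at h1
  rw [mul_assoc, h1, mul_assoc]

lemma DaD_eq_b : (a * b * a) * a * (a * b * a) = b := by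
  have h1 : (a * b * a) * a = b * (a * b * a) := semi_ab h.hbr
  rw [h1, mul_assoc b, h.hD, mul_one]

lemma DaD_ε (ε : ℤ) (hε : ε = 1 ∨ ε = -1) :
    (a * b * a) * a ^ ε * (a * b * a) = a ^ (-ε) * (a * b * a) * a ^ (-ε) := by
  rcases hε with rfl | rfl
  · simpa using h.DaD
  · simpa using h.DaD'

lemma a_zpow {i j : ℤ} (hij : (3 : ℤ) ^ k ∣ i - j) : a ^ i = a ^ j := by
  obtain ⟨x, hx⟩ := hij
  have h1 : a ^ ((3 : ℤ) ^ k) = 1 := by
    have : ((3 : ℤ) ^ k) = ((8 * t + 1 : ℕ) : ℤ) := by rw [h.hm]; push_cast; rfl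
    rw [this, zpow_natCast, h.ha]
  have h2 : i = j + 3 ^ k * x := by linarith
  rw [h2, zpow_add, zpow_mul, h1, one_zpow, mul_one]

lemma p_sq : (a ^ (4 * t + 1)) ^ 2 = a := by
  have : (a ^ (4 * t + 1)) ^ 2 = a ^ (8 * t + 1) * a := by
    rw [← pow_mul, ← pow_succ]; congr 1; ring
  rw [this, h.ha, one_mul]

lemma qpq : b ^ 2 * a ^ (4 * t + 1) * b ^ 2 = a ^ (4 * t + 1) * b ^ 2 * a ^ (4 * t + 1) := by
  have h1 : (a ^ (4 * t + 1) * b ^ 2) ^ 3 =
      (a ^ (4 * t + 1) * b ^ 2 * a ^ (4 * t + 1)) * (b ^ 2 * a ^ (4 * t + 1) * b ^ 2) := by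
    simp only [pow_succ, pow_zero, one_mul, mul_assoc]
  have h2 := h.hδ
  rw [h1] at h2
  have h3 := h.hT
  exact mul_left_cancel (h2.trans h3.symm)

lemma Tp : (a ^ (4 * t + 1) * b ^ 2 * a ^ (4 * t + 1)) * a ^ (4 * t + 1) =
    b ^ 2 * (a ^ (4 * t + 1) * b ^ 2 * a ^ (4 * t + 1)) := by
  nth_rewrite 1 [← h.qpq]
  simp only [mul_assoc]

lemma Ta : SemiconjBy (a ^ (4 * t + 1) * b ^ 2 * a ^ (4 * t + 1)) a (b ^ 4) := by
  have h1 : SemiconjBy (a ^ (4 * t + 1) * b ^ 2 * a ^ (4 * t + 1)) (a ^ (4 * t + 1)) (b ^ 2) := h.Tp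
  have h2 := h1.pow_right 2
  rw [h.p_sq, ← pow_mul] at h2
  exact h2

lemma Ua : SemiconjBy (U a b t) a (a ^ 4) := by
  unfold U
  apply SemiconjBy.mul_left _ h.Ta
  exact (semi_ba h.hbr).pow_right 4

lemma DU : (a * b * a) * U a b t = (U a b t)⁻¹ * (a * b * a) := by
  have hT' : (a ^ (4 * t + 1) * b ^ 2 * a ^ (4 * t + 1))⁻¹ =
    (a ^ (4 * t + 1) * b ^ 2 * a ^ (4 * t + 1)) := inv_eq_of_mul_eq_one_left h.hT
  have hD := h.Dinv
  have hD2 := h.hD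
  unfold U
  generalize a * b * a = D at hD hD2 ⊢
  generalize (a ^ (4 * t + 1) * b ^ 2 * a ^ (4 * t + 1)) = T at hT' ⊢
  rw [mul_inv_rev, hT', hD, ← mul_assoc, hD2, one_mul, mul_assoc, hD2, mul_one]

lemma Ua_pow (j : ℕ) : SemiconjBy ((U a b t) ^ j) a (a ^ ((4 : ℤ) ^ j)) := by
  induction j with
  | zero => simp
  | succ j ih =>
    rw [pow_succ']
    have h1 : SemiconjBy (U a b t) (a ^ ((4 : ℤ) ^ j)) ((a ^ 4) ^ ((4 : ℤ) ^ j)) :=
      h.Ua.zpow_right _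
    have h2 : (a ^ 4) ^ ((4 : ℤ) ^ j) = a ^ ((4 : ℤ) ^ (j + 1)) := by
      rw [← zpow_natCast, ← zpow_mul, pow_succ']; rfl
    rw [h2] at h1
    exact h1.mul_left ih

lemma DU_pow (j : ℕ) : (a * b * a) * (U a b t) ^ j = ((U a b t) ^ j)⁻¹ * (a * b * a) := by
  have h1 : SemiconjBy (a * b * a) (U a b t) (U a b t)⁻¹ := h.DU
  have h2 := h1.pow_right j
  rw [inv_pow] at h2
  exact h2

/-- `U⁻ʲ a Uʲ` is a power of `a` -/
lemma U_inv_conj (j : ℕ) : ∃ u : ℤ, (3 : ℤ) ∣ u - 1 ∧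
    ((U a b t) ^ j)⁻¹ * a * (U a b t) ^ j = a ^ u := by
  obtain ⟨u, hu1, hu2⟩ := exists_inv_four_pow k j
  refine ⟨u, hu2, ?_⟩
  have h1 : SemiconjBy ((U a b t) ^ j) (a ^ u) a := by
    have := (h.Ua_pow j).zpow_right u
    rw [← zpow_mul] at this
    rwa [h.a_zpow (i := 4 ^ j * u) (j := 1) hu1, zpow_one] at this
  have h2 : (U a b t) ^ j * a ^ u = a * (U a b t) ^ j := h1
  rw [mul_assoc, ← h2]; group

lemma key (i : ℤ) (hi : ¬ (3 : ℤ) ∣ i) :
    ∃ β ∈ Subgroup.closure {a, U a b t}, ∃ i' : ℤ, (3 : ℤ) ∣ i' + i ∧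
      (a * b * a) * a ^ i * (a * b * a) = β * (a * b * a) * a ^ i' := by
  obtain ⟨ε, hε, hεi, j, hj⟩ := exists_signed_four_pow k i hi
  obtain ⟨u, hu, hU⟩ := h.U_inv_conj j
  set V := (U a b t) ^ j with hV
  set D := a * b * a with hDd
  have haB : a ∈ Subgroup.closure {a, U a b t} := Subgroup.subset_closure (by simp)
  have hVB : V ∈ Subgroup.closure {a, U a b t} :=
    pow_mem (Subgroup.subset_closure (by simp)) _
  refine ⟨V⁻¹ * a ^ (-ε) * V⁻¹, ?_, -ε * u, ?_, ?_⟩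
  · exact mul_mem (mul_mem (inv_mem hVB) (zpow_mem haB _)) (inv_mem hVB)
  · obtain ⟨x, hx⟩ := hεi
    obtain ⟨y, hy⟩ := hu
    exact ⟨x - ε * y, by linear_combination hx - ε * hy⟩
  · have e1 : a ^ i = V * a ^ ε * V⁻¹ := by
      rw [h.a_zpow hj, mul_comm ε, zpow_mul]
      have := (h.Ua_pow j).eq
      have h2 : a ^ ((4 : ℤ) ^ j) = V * a * V⁻¹ := by rw [← hV] at this; rw [this]; group
      rw [h2, conj_zpow]
    have e2 : V⁻¹ * a ^ (-ε) * V = a ^ (-ε * u) := by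
      have h3 : V⁻¹ * a ^ (-ε) * V = (V⁻¹ * a * V) ^ (-ε) := by
        have := conj_zpow (i := -ε) (a := V⁻¹) (b := a)
        rw [inv_inv] at this
        rw [this]
      rw [h3, hU, ← zpow_mul]; congr 1; ring
    have e3 : D * V = V⁻¹ * D := h.DU_pow j
    have e4 : D * a ^ ε * D = a ^ (-ε) * D * a ^ (-ε) := h.DaD_ε ε hε
    have e5 : D * V⁻¹ = V * D := by
      have : V * (D * V) * V⁻¹ = V * (V⁻¹ * D) * V⁻¹ := by rw [e3]
      calc D * V⁻¹ = V * (V⁻¹ * D) * V⁻¹ := by group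
        _ = V * (D * V) * V⁻¹ := by rw [e3]
        _ = V * D := by group
    have e6 : V⁻¹ * D = D * V := e3.symm
    rw [e1]
    calc D * (V * a ^ ε * V⁻¹) * D = (D * V) * a ^ ε * (V⁻¹ * D) := by group
      _ = (V⁻¹ * D) * a ^ ε * (D * V) := by rw [e6]
      _ = V⁻¹ * (D * a ^ ε * D) * V := by group
      _ = V⁻¹ * (a ^ (-ε) * D * a ^ (-ε)) * V := by rw [e4]
      _ = V⁻¹ * a ^ (-ε) * (D * V) * (V⁻¹ * a ^ (-ε) * V) := by group
      _ = V⁻¹ * a ^ (-ε) * (V⁻¹ * D) * a ^ (-ε * u) := by rw [e2, e3]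
      _ = V⁻¹ * a ^ (-ε) * V⁻¹ * D * a ^ (-ε * u) := by group

/-- the Bruhat-like decomposition -/
def Dec (a b : Q) (t : ℕ) (g : Q) : Prop :=
  ∃ β ∈ Subgroup.closure {a, U a b t}, ∃ i : ℤ,
    g = β * (a * b * a) * a ^ i ∨ ((3 : ℤ) ∣ i ∧ g = β * (a * b * a) * a ^ i * (a * b * a))

lemma dec_D {g : Q} (hg : Dec a b t g) : Dec a b t (g * (a * b * a)) := by
  obtain ⟨β, hβ, i, hi | ⟨h3, hi⟩⟩ := hg
  · by_cases h3 : (3 : ℤ) ∣ i
    · exact ⟨β, hβ, i, Or.inr ⟨h3, by rw [hi]⟩⟩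
    · obtain ⟨β', hβ', i', -, e⟩ := h.key i h3
      refine ⟨β * β', mul_mem hβ hβ', i', Or.inl ?_⟩
      rw [hi, mul_assoc β, mul_assoc β, e]
      simp only [mul_assoc]
  · refine ⟨β, hβ, i, Or.inl ?_⟩
    rw [hi, mul_assoc _ (a * b * a), h.hD, mul_one]

lemma dec_a {g : Q} (hg : Dec a b t g) (ε : ℤ) (hε : ε = 1 ∨ ε = -1) : Dec a b t (g * a ^ ε) := by
  obtain ⟨β, hβ, i, hi | ⟨h3, hi⟩⟩ := hg
  · refine ⟨β, hβ, i + ε, Or.inl ?_⟩
    rw [hi, zpow_add]; simp only [mul_assoc]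
  · obtain ⟨β', hβ', i', h3', e⟩ := h.key (i - ε) (by omega)
    refine ⟨β * β', mul_mem hβ hβ', i' - ε, Or.inr ⟨by omega, ?_⟩⟩
    -- D a^ε = a^{-ε} D a^{-ε} D
    have e1 : (a * b * a) * a ^ ε = a ^ (-ε) * (a * b * a) * a ^ (-ε) * (a * b * a) := by
      rw [← h.DaD_ε ε hε, mul_assoc _ (a * b * a), h.hD, mul_one]
    rw [hi, mul_assoc _ (a * b * a) (a ^ ε), e1]
    calc β * (a * b * a) * a ^ i * (a ^ (-ε) * (a * b * a) * a ^ (-ε) * (a * b * a))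
        = β * ((a * b * a) * a ^ (i - ε) * (a * b * a)) * a ^ (-ε) * (a * b * a) := by
          rw [sub_eq_add_neg, zpow_add]; simp only [mul_assoc]
      _ = β * (β' * (a * b * a) * a ^ i') * a ^ (-ε) * (a * b * a) := by rw [e]
      _ = β * β' * (a * b * a) * a ^ (i' - ε) * (a * b * a) := by
          rw [sub_eq_add_neg, zpow_add]; simp only [mul_assoc]

lemma dec_b {g : Q} (hg : Dec a b t g) (ε : ℤ) (hε : ε = 1 ∨ ε = -1) : Dec a b t (g * b ^ ε) := by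
  have e : g * b ^ ε = g * (a * b * a) * a ^ ε * (a * b * a) := by
    have h1 : b ^ ε = (a * b * a) * a ^ ε * (a * b * a) := by
      have h2 : b = (a * b * a) * a * (a * b * a)⁻¹ := by rw [h.Dinv, h.DaD_eq_b]
      have h3 : ((a * b * a) * a * (a * b * a)⁻¹) ^ ε = (a * b * a) * a ^ ε * (a * b * a)⁻¹ :=
        conj_zpow
      rw [← h2, h.Dinv] at h3
      exact h3
    rw [h1]; simp only [mul_assoc]
  rw [e]
  exact h.dec_D (h.dec_a (h.dec_D hg) ε hε)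

theorem dec_all (g : Q) : Dec a b t g := by
  have hg : g ∈ Subgroup.closure {a, b} := by rw [h.hgen]; exact Subgroup.mem_top g
  induction hg using Subgroup.closure_induction_right with
  | one =>
    refine ⟨1, one_mem _, 0, Or.inr ⟨dvd_zero _, ?_⟩⟩
    rw [zpow_zero, mul_one, one_mul, h.hD]
  | mul_right x hx y hy ih =>
    rcases hy with rfl | hy
    · simpa using h.dec_a ih 1 (Or.inl rfl)
    · rw [Set.mem_singleton_iff] at hy
      subst hy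
      simpa using h.dec_b ih 1 (Or.inl rfl)
  | mul_inv_cancel x hx y hy ih =>
    rcases hy with rfl | hy
    · simpa using h.dec_a ih (-1) (Or.inr rfl)
    · rw [Set.mem_singleton_iff] at hy
      subst hy
      simpa using h.dec_b ih (-1) (Or.inr rfl)

/-- every element of `⟨a, U⟩` is `aⁱ Uʲ` -/
theorem B_form {β : Q} (hβ : β ∈ Subgroup.closure {a, U a b t}) :
    ∃ i j : ℤ, β = a ^ i * (U a b t) ^ j := by
  -- conjugation of a by integer powers of U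
  have conj : ∀ j : ℤ, ∃ u : ℤ, (U a b t) ^ j * a = a ^ u * (U a b t) ^ j := by
    intro j
    obtain ⟨n, rfl | rfl⟩ := j.eq_nat_or_neg
    · refine ⟨4 ^ n, ?_⟩
      rw [zpow_natCast]
      exact (h.Ua_pow n).eq
    · obtain ⟨u, -, hu⟩ := h.U_inv_conj n
      refine ⟨u, ?_⟩
      rw [zpow_neg, zpow_natCast, ← hu]; group
  have conj' : ∀ (j i : ℤ), ∃ u : ℤ, (U a b t) ^ j * a ^ i = a ^ u * (U a b t) ^ j := by
    intro j i
    obtain ⟨u, hu⟩ := conj j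
    refine ⟨u * i, ?_⟩
    have : SemiconjBy ((U a b t) ^ j) a (a ^ u) := hu
    have h2 := (this.zpow_right i).eq
    rw [← zpow_mul] at h2
    exact h2
  induction hβ using Subgroup.closure_induction_right with
  | one => exact ⟨0, 0, by simp⟩
  | mul_right x hx y hy ih =>
    obtain ⟨i, j, rfl⟩ := ih
    rcases hy with rfl | hy
    · obtain ⟨u, hu⟩ := conj j
      refine ⟨i + u, j, ?_⟩
      rw [mul_assoc, hu, zpow_add, mul_assoc]
    · rw [Set.mem_singleton_iff] at hy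
      subst hy
      exact ⟨i, j + 1, by rw [zpow_add_one, mul_assoc]⟩
  | mul_inv_cancel x hx y hy ih =>
    obtain ⟨i, j, rfl⟩ := ih
    rcases hy with rfl | hy
    · obtain ⟨u, hu⟩ := conj' j (-1)
      refine ⟨i + u, j, ?_⟩
      rw [zpow_neg_one] at hu
      rw [mul_assoc, hu, zpow_add, mul_assoc]
    · rw [Set.mem_singleton_iff] at hy
      subst hy
      exact ⟨i, j - 1, by rw [zpow_sub_one, mul_assoc]⟩

/-- `U` has finite order -/
theorem U_order : ∃ N : ℕ, 0 < N ∧ (U a b t) ^ N = 1 := by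
  obtain ⟨v, hv⟩ := four_pow_three_pow k
  set V := (U a b t) ^ (3 ^ k) with hV
  have hVa : Commute V a := by
    have h1 := h.Ua_pow (3 ^ k)
    have h2 : a ^ ((4 : ℤ) ^ (3 ^ k)) = a := by
      have := h.a_zpow (i := (4 : ℤ) ^ (3 ^ k)) (j := 1) ⟨3 * (1 + 3 * v), by rw [hv]; ring⟩
      rwa [zpow_one] at this
    rw [h2] at h1
    exact h1
  have hDV : SemiconjBy (a * b * a) V V⁻¹ := h.DU_pow (3 ^ k)
  have hVb : Commute V b := by
    have h3 : SemiconjBy (a * b * a) (V * a) (V⁻¹ * b) := hDV.mul_right (semi_ab h.hbr)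
    have h4 : SemiconjBy (a * b * a) (a * V) (b * V⁻¹) := (semi_ab h.hbr).mul_right hDV
    rw [hVa.eq] at h3
    have h5 : V⁻¹ * b = b * V⁻¹ := by
      have := h3.eq.symm.trans h4.eq
      exact mul_right_cancel this
    have h6 : Commute V⁻¹ b := h5
    simpa using h6.inv_left
  have hVD : Commute V (a * b * a) := (hVa.mul_right hVb).mul_right hVa
  have h7 : V⁻¹ = V := by
    have h8 := hDV.eq
    rw [← hVD.eq] at h8
    exact (mul_right_cancel h8).symm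
  refine ⟨3 ^ k + 3 ^ k, by positivity, ?_⟩
  rw [pow_add, ← hV]
  nth_rewrite 1 [← h7]
  exact inv_mul_cancel V

theorem finite : Finite Q := by
  obtain ⟨N, hN, hU⟩ := h.U_order
  set U' := U a b t with hU'
  have fa : IsOfFinOrder a := isOfFinOrder_iff_pow_eq_one.mpr ⟨8 * t + 1, by omega, h.ha⟩
  have fU : IsOfFinOrder U' := isOfFinOrder_iff_pow_eq_one.mpr ⟨N, hN, hU⟩
  have s1 : (Set.range (fun i : ℤ => a ^ i)).Finite := by
    have := fa.finite_zpowers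
    exact this
  have s2 : (Set.range (fun i : ℤ => U' ^ i)).Finite := by
    have := fU.finite_zpowers
    exact this
  have s3 : ((fun (x : Q × Q × Q) => x.1 * x.2.1 * (a * b * a) * x.2.2) ''
      ((Set.range (fun i : ℤ => a ^ i)) ×ˢ ((Set.range (fun i : ℤ => U' ^ i)) ×ˢ
        (Set.range (fun i : ℤ => a ^ i))))).Finite := (s1.prod (s2.prod s1)).image _
  have s4 : ((fun (x : Q × Q × Q) => x.1 * x.2.1 * (a * b * a) * x.2.2 * (a * b * a)) ''
      ((Set.range (fun i : ℤ => a ^ i)) ×ˢ ((Set.range (fun i : ℤ => U' ^ i)) ×ˢ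
        (Set.range (fun i : ℤ => a ^ i))))).Finite := (s1.prod (s2.prod s1)).image _
  have : (Set.univ : Set Q).Finite := by
    apply (s3.union s4).subset
    intro g _
    obtain ⟨β, hβ, i, hi⟩ := h.dec_all g
    obtain ⟨x, y, hxy⟩ := h.B_form hβ
    rcases hi with hi | ⟨-, hi⟩
    · left
      exact ⟨(a ^ x, U' ^ y, a ^ i), ⟨⟨x, rfl⟩, ⟨y, rfl⟩, ⟨i, rfl⟩⟩, by rw [hi, hxy]⟩
    · right
      exact ⟨(a ^ x, U' ^ y, a ^ i), ⟨⟨x, rfl⟩, ⟨y, rfl⟩, ⟨i, rfl⟩⟩, by rw [hi, hxy]⟩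
  exact Set.finite_univ_iff.mp this

end Rel

end Pool.Agent.DefZero
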