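import Pool.Agent.DefZero.Braid

set_option autoImplicit false

namespace Pool.Agent.DefZero

variable {G : Type*} [Group G]

/-- abstract computation: if `(p²q)²` and `(q²p)²` are central, `p` commutes with everything that
commutes with `p²`, then `(pq)³` commutes with `p` and `q`. -/
lemma delta_aux {p q : G} (hα : (p ^ 2 * q) ^ 2 ∈ Subgroup.center G)
    (hβ : (q ^ 2 * p) ^ 2 ∈ Subgroup.center G)
    (hp : ∀ x : G, Commute (p ^ 2) x → Commute p x) :
    Commute ((p * q) ^ 3) p ∧ Commute ((p * q) ^ 3) q := by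
  set α := (p ^ 2 * q) ^ 2 with hαd
  set β := (q ^ 2 * p) ^ 2 with hβd
  have cα : ∀ g, g * α = α * g := fun g => Subgroup.mem_center_iff.mp hα g
  have cβ : ∀ g, g * β = β * g := fun g => Subgroup.mem_center_iff.mp hβ g
  have hi : (p * q * p) ^ 2 = α := by
    have : (p * q * p) ^ 2 = p⁻¹ * α * p := by
      rw [hαd]; simp only [pow_two, mul_assoc, inv_mul_cancel_left]
    rw [this, mul_assoc, ← cα, inv_mul_cancel_left]
  have hj : (q * p * q) ^ 2 = β := by
    have : (q * p * q) ^ 2 = q⁻¹ * β * q := by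
      rw [hβd]; simp only [pow_two, mul_assoc, inv_mul_cancel_left]
    rw [this, mul_assoc, ← cβ, inv_mul_cancel_left]
  have hδ : (p * q) ^ 3 = (p * q * p) * (q * p * q) := by
    simp only [pow_succ, pow_zero, one_mul, mul_assoc]
  have hδ' : (q * p) ^ 3 = (q * p * q) * (p * q * p) := by
    simp only [pow_succ, pow_zero, one_mul, mul_assoc]
  have h1 : (q * p) ^ 3 * (p * q) ^ 3 = α * β := by
    rw [hδ, hδ']
    calc (q * p * q) * (p * q * p) * ((p * q * p) * (q * p * q))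
        = (q * p * q) * ((p * q * p) ^ 2) * (q * p * q) := by
          simp only [pow_two, mul_assoc]
      _ = (q * p * q) * α * (q * p * q) := by rw [hi]
      _ = α * ((q * p * q) ^ 2) := by rw [cα, pow_two, mul_assoc]
      _ = α * β := by rw [hj]
  -- conj by p
  have h2 : p * (q * p) ^ 3 = (p * q) ^ 3 * p := by
    simp only [pow_succ, pow_zero, one_mul, mul_assoc]
  have h3 : q * (p * q) ^ 3 = (q * p) ^ 3 * q := by
    simp only [pow_succ, pow_zero, one_mul, mul_assoc]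
  set δ := (p * q) ^ 3 with hδd
  set ε := (q * p) ^ 3 with hεd
  -- ε * δ = αβ
  have h4 : δ * p * δ = p * (α * β) := by
    rw [← h2, mul_assoc, h1]
  -- p² commutes with δ
  have hp2 : Commute (p ^ 2) δ := by
    have h5 : δ * (p * p) * δ⁻¹ = p * p := by
      have e1 : δ * p = p * (α * β) * δ⁻¹ := by rw [← h4]; group
      have e2 : p * δ⁻¹ = δ⁻¹ * (p * (α * β)) * (δ⁻¹ * δ⁻¹) := by
        rw [← h4]; group
      -- δ p δ = p αβ  ⇒ p = δ⁻¹ p αβ δ⁻¹
      have e3 : p = δ⁻¹ * p * (α * β) * δ⁻¹ := by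
        have : δ⁻¹ * p * (α * β) * δ⁻¹ = δ⁻¹ * (p * (α * β)) * δ⁻¹ := by group
        rw [this, ← h4]; group
      have c1 : δ⁻¹ * p = p * (α * β)⁻¹ * δ := by
        have cc : (α * β) * δ⁻¹ = δ⁻¹ * (α * β) := by
          rw [mul_assoc, ← cβ δ⁻¹, ← mul_assoc, ← cα δ⁻¹, mul_assoc]
        have e4 : p = δ⁻¹ * p * δ⁻¹ * (α * β) := by
          calc p = δ⁻¹ * p * (α * β) * δ⁻¹ := e3
            _ = δ⁻¹ * p * ((α * β) * δ⁻¹) := by group
            _ = δ⁻¹ * p * (δ⁻¹ * (α * β)) := by rw [cc]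
            _ = δ⁻¹ * p * δ⁻¹ * (α * β) := by group
        have e5 : p * (α * β)⁻¹ = δ⁻¹ * p * δ⁻¹ := by
          nth_rewrite 1 [e4]; group
        rw [e5]; group
      have cc2 : ∀ g : G, g * (α * β) = (α * β) * g := by
        intro g
        rw [← mul_assoc, cα, mul_assoc, cβ, ← mul_assoc]
      calc δ * (p * p) * δ⁻¹ = (δ * p) * (p * δ⁻¹) := by group
        _ = (p * (α * β) * δ⁻¹) * (p * δ⁻¹) := by rw [e1]
        _ = p * (α * β) * (δ⁻¹ * p) * δ⁻¹ := by group
        _ = p * (α * β) * (p * (α * β)⁻¹ * δ) * δ⁻¹ := by rw [c1]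
        _ = p * ((α * β) * p) * (α * β)⁻¹ := by group
        _ = p * (p * (α * β)) * (α * β)⁻¹ := by rw [cc2]
        _ = p * p := by group
    have h6 : δ * (p * p) = (p * p) * δ := by
      calc δ * (p * p) = (δ * (p * p) * δ⁻¹) * δ := by group
        _ = (p * p) * δ := by rw [h5]
    rw [pow_two]
    exact h6.symm
  have hpδ : Commute p δ := hp δ hp2
  have hεδ : ε = δ := by
    have : p * ε = p * δ := by rw [h2, hpδ.eq]
    exact mul_left_cancel this
  refine ⟨hpδ.symm, ?_⟩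
  rw [hεδ] at h3
  exact h3.symm

section braid

variable {a b : G} (hgen : Subgroup.closure {a, b} = ⊤) (hbr : a * b * a = b * a * b)
  {t : ℕ} (hrel : (b ^ 4 * a ^ (4 * t + 1)) ^ 2 * a ^ (8 * t + 1) = (a * b * a) ^ 2)
include hgen hbr

lemma z_central : (a * b * a) ^ 2 ∈ Subgroup.center G :=
  mem_center_of_gen hgen (commD_a hbr) (commD_b hbr)

include hrel

lemma c_central : a ^ (8 * t + 1) ∈ Subgroup.center G :=
  mem_center_of_gen hgen ((Commute.refl a).pow_left _) (comm_c_b hbr hrel)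

lemma beta_central : ((b ^ 2) ^ 2 * a ^ (4 * t + 1)) ^ 2 ∈ Subgroup.center G := by
  have h : ((b ^ 2) ^ 2 * a ^ (4 * t + 1)) ^ 2 = (a * b * a) ^ 2 * (a ^ (8 * t + 1))⁻¹ := by
    rw [← hrel, ← pow_mul]; group
  rw [h]
  exact mul_mem (z_central hgen hbr) (inv_mem (c_central hgen hbr hrel))

lemma alpha_central : ((a ^ (4 * t + 1)) ^ 2 * b ^ 2) ^ 2 ∈ Subgroup.center G := by
  have hc := c_central hgen hbr hrel
  have h1 : (a ^ (4 * t + 1)) ^ 2 = a ^ (8 * t + 1) * a := by
    rw [← pow_mul, ← pow_succ]; congr 1; ring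
  have h2 : (a * b ^ 2) ^ 2 = (a * b * a) ^ 2 := by
    calc (a * b ^ 2) ^ 2 = a * b * (b * a * b) * b := by
          simp only [pow_two, mul_assoc]
      _ = a * b * (a * b * a) * b := by rw [hbr]
      _ = (a * b * a) * (b * a * b) := by simp only [mul_assoc]
      _ = (a * b * a) * (a * b * a) := by rw [hbr]
      _ = (a * b * a) ^ 2 := by rw [pow_two]
  have h3 : ((a ^ (4 * t + 1)) ^ 2 * b ^ 2) ^ 2 = (a ^ (8 * t + 1)) ^ 2 * (a * b * a) ^ 2 := by
    rw [h1, mul_assoc, ← h2]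
    have : Commute (a ^ (8 * t + 1)) (a * b ^ 2) :=
      (Subgroup.mem_center_iff.mp hc (a * b ^ 2)).symm
    exact this.mul_pow 2
  rw [h3]
  exact mul_mem (pow_mem hc 2) (z_central hgen hbr)

lemma delta_central : (a ^ (4 * t + 1) * b ^ 2) ^ 3 ∈ Subgroup.center G := by
  have hc := c_central hgen hbr hrel
  have h1 : (a ^ (4 * t + 1)) ^ 2 = a ^ (8 * t + 1) * a := by
    rw [← pow_mul, ← pow_succ]; congr 1; ring
  have hcx : ∀ x : G, Commute (a ^ (8 * t + 1)) x := fun x =>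
    (Subgroup.mem_center_iff.mp hc x).symm
  have hpa : ∀ x : G, Commute ((a ^ (4 * t + 1)) ^ 2) x → Commute a x := by
    intro x hx
    have : a = (a ^ (8 * t + 1))⁻¹ * (a ^ (4 * t + 1)) ^ 2 := by rw [h1]; group
    rw [this]
    exact ((hcx x).inv_left).mul_left hx
  obtain ⟨h2, h3⟩ := delta_aux (alpha_central hgen hbr hrel) (beta_central hgen hbr hrel)
    (fun x hx => (hpa x hx).pow_left _)
  apply mem_center_of_gen hgen
  · apply Commute.symm
    apply hpa
    exact (h2.symm).pow_left 2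
  · have h4 : b = (b ^ 2) ^ (4 * t + 1) * (b ^ (8 * t + 1))⁻¹ := by
      rw [← pow_mul, show 2 * (4 * t + 1) = (8 * t + 1) + 1 by ring, pow_succ']
      group
    have h5 : Commute ((a ^ (4 * t + 1) * b ^ 2) ^ 3) ((b ^ 2) ^ (4 * t + 1) * (b ^ (8 * t + 1))⁻¹) := by
      apply Commute.mul_right
      · exact h3.pow_right _
      · apply Commute.inv_right
        rw [bm_eq_am hbr hrel]
        exact (hcx _).symm
    rwa [← h4] at h5

end braid

end Pool.Agent.DefZero
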