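import Pool.Agent.DefZero.SL2

set_option autoImplicit false

namespace Pool.Agent.DefZero

theorem chi_mul : ∀ a b c d : ZMod 3, a * d - b * c = 1 → ∀ a' b' c' d' : ZMod 3,
    a' * d' - b' * c' = 1 →
    (1 - (c * a' + d * c') ^ 2) * ((a * b' + b * d') * (c * b' + d * d')) +
      (c * a' + d * c') * ((a * a' + b * c') + (c * b' + d * d')) =
    ((1 - c ^ 2) * (b * d) + c * (a + d)) + ((1 - c' ^ 2) * (b' * d') + c' * (a' + d')) := by
  decide

theorem chi_ker : ∀ a b c d : ZMod 3, a * d - b * c = 1 →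
    (1 - c ^ 2) * (b * d) + c * (a + d) = 0 →
    (a * a + b * c) * (a * a + b * c) + (a * b + b * d) * (c * a + d * c) = 1 ∧
    (a * a + b * c) * (a * b + b * d) + (a * b + b * d) * (c * b + d * d) = 0 ∧
    (c * a + d * c) * (a * a + b * c) + (c * b + d * d) * (c * a + d * c) = 0 ∧
    (c * a + d * c) * (a * b + b * d) + (c * b + d * d) * (c * b + d * d) = 1 := by
  decide

lemma sl2_det {R : Type*} [CommRing R] (g : SL2 R) :
    (g : Matrix (Fin 2) (Fin 2) R) 0 0 * (g : Matrix (Fin 2) (Fin 2) R) 1 1 -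
      (g : Matrix (Fin 2) (Fin 2) R) 0 1 * (g : Matrix (Fin 2) (Fin 2) R) 1 0 = 1 := by
  have := g.det_coe
  rwa [Matrix.det_fin_two] at this

lemma sl2_mul {R : Type*} [CommRing R] (g h : SL2 R) :
    ((g * h : SL2 R) : Matrix (Fin 2) (Fin 2) R) 0 0 = (g : Matrix (Fin 2) (Fin 2) R) 0 0 * (h : Matrix (Fin 2) (Fin 2) R) 0 0 + (g : Matrix (Fin 2) (Fin 2) R) 0 1 * (h : Matrix (Fin 2) (Fin 2) R) 1 0 ∧
    ((g * h : SL2 R) : Matrix (Fin 2) (Fin 2) R) 0 1 = (g : Matrix (Fin 2) (Fin 2) R) 0 0 * (h : Matrix (Fin 2) (Fin 2) R) 0 1 + (g : Matrix (Fin 2) (Fin 2) R) 0 1 * (h : Matrix (Fin 2) (Fin 2) R) 1 1 ∧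
    ((g * h : SL2 R) : Matrix (Fin 2) (Fin 2) R) 1 0 = (g : Matrix (Fin 2) (Fin 2) R) 1 0 * (h : Matrix (Fin 2) (Fin 2) R) 0 0 + (g : Matrix (Fin 2) (Fin 2) R) 1 1 * (h : Matrix (Fin 2) (Fin 2) R) 1 0 ∧
    ((g * h : SL2 R) : Matrix (Fin 2) (Fin 2) R) 1 1 = (g : Matrix (Fin 2) (Fin 2) R) 1 0 * (h : Matrix (Fin 2) (Fin 2) R) 0 1 + (g : Matrix (Fin 2) (Fin 2) R) 1 1 * (h : Matrix (Fin 2) (Fin 2) R) 1 1 := by
  rw [Matrix.SpecialLinearGroup.coe_mul]
  refine ⟨?_, ?_, ?_, ?_⟩ <;> simp [Matrix.mul_apply, Fin.sum_univ_two]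

/-- the character of order three of `SL(2,3)` -/
def chi : SL2 (ZMod 3) →* Multiplicative (ZMod 3) :=
  MonoidHom.mk' (fun g => Multiplicative.ofAdd
    ((1 - ((g : Matrix (Fin 2) (Fin 2) (ZMod 3)) 1 0) ^ 2) *
      ((g : Matrix (Fin 2) (Fin 2) (ZMod 3)) 0 1 * (g : Matrix (Fin 2) (Fin 2) (ZMod 3)) 1 1) +
      (g : Matrix (Fin 2) (Fin 2) (ZMod 3)) 1 0 *
        ((g : Matrix (Fin 2) (Fin 2) (ZMod 3)) 0 0 + (g : Matrix (Fin 2) (Fin 2) (ZMod 3)) 1 1))) (by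
    intro g h
    obtain ⟨h1, h2, h3, h4⟩ := sl2_mul g h
    rw [← ofAdd_add]
    apply congrArg
    rw [h1, h2, h3, h4]
    exact chi_mul _ _ _ _ (sl2_det g) _ _ _ _ (sl2_det h))

lemma chi_apply (g : SL2 (ZMod 3)) : chi g = Multiplicative.ofAdd
    ((1 - ((g : Matrix (Fin 2) (Fin 2) (ZMod 3)) 1 0) ^ 2) *
      ((g : Matrix (Fin 2) (Fin 2) (ZMod 3)) 0 1 * (g : Matrix (Fin 2) (Fin 2) (ZMod 3)) 1 1) +
      (g : Matrix (Fin 2) (Fin 2) (ZMod 3)) 1 0 *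
        ((g : Matrix (Fin 2) (Fin 2) (ZMod 3)) 0 0 + (g : Matrix (Fin 2) (Fin 2) (ZMod 3)) 1 1)) := rfl

lemma chi_ker_pow (g : SL2 (ZMod 3)) (hg : chi g = 1) : g ^ 4 = 1 := by
  rw [chi_apply] at hg
  have hg' := congrArg Multiplicative.toAdd hg
  rw [toAdd_ofAdd, toAdd_one] at hg'
  obtain ⟨c1, c2, c3, c4⟩ := chi_ker _ _ _ _ (sl2_det g) hg'
  obtain ⟨h1, h2, h3, h4⟩ := sl2_mul g g
  obtain ⟨k1, k2, k3, k4⟩ := sl2_mul (g * g) (g * g)
  simp only [h1, h2, h3, h4] at k1 k2 k3 k4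
  have e4 : g ^ 4 = (g * g) * (g * g) := by rw [← pow_two, ← pow_two, ← pow_mul]
  rw [e4]
  apply Subtype.ext
  ext i j
  fin_cases i <;> fin_cases j
  · exact k1.trans c1
  · exact k2.trans c2
  · exact k3.trans c3
  · exact k4.trans c4

theorem solv3 : Group.IsSolvable (SL2 (ZMod 3)) := by
  have hp : IsPGroup 2 chi.ker := by
    intro g
    refine ⟨2, ?_⟩
    apply Subtype.ext
    have := chi_ker_pow g.1 (MonoidHom.mem_ker.mp g.2)
    simpa using this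
  have : Fact (Nat.Prime 2) := ⟨Nat.prime_two⟩
  have : Group.IsNilpotent chi.ker := hp.isNilpotent
  have : Group.IsSolvable chi.ker := inferInstance
  exact Group.isSolvable_of_ker_le_range chi.ker.subtype chi (by rw [Subgroup.range_subtype])

lemma one_add_pow_comm {S : Type*} [CommRing S] (x : S) (n : ℕ) :
    ∃ y : S, (1 + 3 * x) ^ (3 ^ n) = 1 + (3 : S) ^ (n + 1) * y := by
  induction n with
  | zero => exact ⟨x, by simp⟩
  | succ n ih =>
    obtain ⟨X, hX⟩ := ih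
    refine ⟨X + 3 ^ (n + 1) * X * X + 3 ^ (2 * n + 1) * X * X * X, ?_⟩
    rw [pow_succ 3 n, pow_mul, hX]
    ring

lemma one_add_pow {R S : Type*} [CommRing R] [Ring S] [Algebra R S] (x : S) (n : ℕ) :
    ∃ y : S, (1 + (3 : R) • x) ^ (3 ^ n) = 1 + ((3 : R) ^ (n + 1)) • y := by
  obtain ⟨y, hy⟩ := one_add_pow_comm (Polynomial.X : Polynomial R) n
  have h := congrArg (Polynomial.aeval x) hy
  refine ⟨Polynomial.aeval x y, ?_⟩
  have h3 : (Polynomial.aeval x) (3 : Polynomial R) = (3 : S) := map_ofNat _ 3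
  rw [map_pow, map_add, map_mul, map_add, map_mul, map_pow, map_one, Polynomial.aeval_X, h3] at h
  rw [Algebra.smul_def, Algebra.smul_def, map_pow, map_ofNat]
  exact h

lemma cast_zero {k : ℕ} (hk : 1 ≤ k) (x : ZMod (3 ^ k))
    (hx : ZMod.castHom (dvd_pow_self 3 (by omega : k ≠ 0)) (ZMod 3) x = 0) :
    ∃ y : ZMod (3 ^ k), x = 3 * y := by
  have h1 : (x.val : ZMod (3 ^ k)) = x := ZMod.natCast_zmod_val x
  rw [← h1, map_natCast, ZMod.natCast_eq_zero_iff] at hx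
  obtain ⟨y, hy⟩ := hx
  exact ⟨y, by rw [← h1, hy]; push_cast; rfl⟩

theorem solvK {k : ℕ} (hk : 1 ≤ k) : Group.IsSolvable (SL2 (ZMod (3 ^ k))) := by
  set ψ : ZMod (3 ^ k) →+* ZMod 3 := ZMod.castHom (dvd_pow_self 3 (by omega : k ≠ 0)) (ZMod 3) with hψ
  set Ψ : SL2 (ZMod (3 ^ k)) →* SL2 (ZMod 3) := Matrix.SpecialLinearGroup.map ψ with hΨ
  have hp : IsPGroup 3 Ψ.ker := by
    rintro ⟨g, hg⟩
    refine ⟨k, ?_⟩
    apply Subtype.ext
    change g ^ (3 ^ k) = 1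
    rw [MonoidHom.mem_ker] at hg
    -- entries
    have hent : ∀ i j, ∃ y, (g : Matrix (Fin 2) (Fin 2) (ZMod (3 ^ k))) i j -
        (1 : Matrix (Fin 2) (Fin 2) (ZMod (3 ^ k))) i j = 3 * y := by
      intro i j
      apply cast_zero hk
      rw [map_sub]
      have h1 := congrArg (fun (X : SL2 (ZMod 3)) => (X : Matrix (Fin 2) (Fin 2) (ZMod 3)) i j) hg
      simp only [hΨ, Matrix.SpecialLinearGroup.map_apply_coe, RingHom.mapMatrix_apply,
        Matrix.map_apply, Matrix.SpecialLinearGroup.coe_one] at h1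
      rw [← hψ, h1]
      by_cases hij : i = j
      · subst hij; simp
      · simp [hij]
    choose y hy using hent
    have hM : (g : Matrix (Fin 2) (Fin 2) (ZMod (3 ^ k))) =
        1 + (3 : ZMod (3 ^ k)) • Matrix.of y := by
      ext i j
      have := hy i j
      rw [Matrix.add_apply, Matrix.smul_apply, Matrix.of_apply, smul_eq_mul, ← this]
      ring
    apply Subtype.ext
    rw [Matrix.SpecialLinearGroup.coe_pow, hM, Matrix.SpecialLinearGroup.coe_one]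
    obtain ⟨Y, hY⟩ := one_add_pow (R := ZMod (3 ^ k)) (Matrix.of y) k
    rw [hY]
    have h0 : (3 : ZMod (3 ^ k)) ^ (k + 1) = 0 := by
      have h1 : ((3 ^ k : ℕ) : ZMod (3 ^ k)) = 0 := ZMod.natCast_self _
      push_cast at h1
      rw [pow_succ, h1, zero_mul]
    rw [h0]; simp
  have : Fact (Nat.Prime 3) := ⟨Nat.prime_three⟩
  have : Group.IsNilpotent Ψ.ker := hp.isNilpotent
  have : Group.IsSolvable Ψ.ker := inferInstance
  have := solv3
  exact Group.isSolvable_of_ker_le_range Ψ.ker.subtype Ψ (by rw [Subgroup.range_subtype])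

end Pool.Agent.DefZero
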