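import Pool.Agent.DefZero.Cosets
import Pool.Agent.DefZero.Solv

set_option autoImplicit false

namespace Pool.Agent.DefZero

open scoped commutatorElement

/-- a group with finite central quotient and finite abelianization is finite -/
theorem finite_of_center {G : Type*} [Group G] (h1 : Finite (G ⧸ Subgroup.center G))
    (h2 : Finite (Abelianization G)) : Finite G := by
  have hc : Finite (commutatorSet G) := by
    have hsub : commutatorSet G ⊆ Set.range (fun x : (G ⧸ Subgroup.center G) × (G ⧸ Subgroup.center G) =>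
        ⁅x.1.out, x.2.out⁆) := by
      rintro g ⟨g₁, g₂, rfl⟩
      refine ⟨(QuotientGroup.mk g₁, QuotientGroup.mk g₂), ?_⟩
      obtain ⟨z₁, hz₁⟩ := QuotientGroup.mk_out_eq_mul (Subgroup.center G) g₁
      obtain ⟨z₂, hz₂⟩ := QuotientGroup.mk_out_eq_mul (Subgroup.center G) g₂
      simp only
      rw [hz₁, hz₂, commutatorElement_def, commutatorElement_def]
      have c1 : ∀ x : G, x * (z₁ : G) = z₁ * x := fun x => Subgroup.mem_center_iff.mp z₁.2 x
      have c2 : ∀ x : G, x * (z₂ : G) = z₂ * x := fun x => Subgroup.mem_center_iff.mp z₂.2 x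
      rw [mul_inv_rev, mul_inv_rev]
      calc g₁ * ↑z₁ * (g₂ * ↑z₂) * ((↑z₁)⁻¹ * g₁⁻¹) * ((↑z₂)⁻¹ * g₂⁻¹)
          = (z₁ * g₁) * (z₂ * g₂) * ((↑z₁)⁻¹ * g₁⁻¹) * ((↑z₂)⁻¹ * g₂⁻¹) := by rw [c1, c2]
        _ = (z₁ : G) * ((g₁ * z₂) * g₂ * (↑z₁)⁻¹ * g₁⁻¹ * (↑z₂)⁻¹ * g₂⁻¹) := by group
        _ = ((g₁ * z₂) * g₂ * (↑z₁)⁻¹ * g₁⁻¹ * (↑z₂)⁻¹ * g₂⁻¹) * (z₁ : G) := by rw [c1]
        _ = g₁ * (z₂ * (g₂ * (↑z₁)⁻¹ * g₁⁻¹)) * (↑z₂)⁻¹ * (g₂⁻¹ * (z₁ : G)) := by group
        _ = g₁ * ((g₂ * (↑z₁)⁻¹ * g₁⁻¹) * z₂) * (↑z₂)⁻¹ * (z₁ * g₂⁻¹) := by rw [c1, c2]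
        _ = g₁ * g₂ * (↑z₁)⁻¹ * (g₁⁻¹ * z₁) * g₂⁻¹ := by group
        _ = g₁ * g₂ * (↑z₁)⁻¹ * (z₁ * g₁⁻¹) * g₂⁻¹ := by rw [c1]
        _ = g₁ * g₂ * g₁⁻¹ * g₂⁻¹ := by group
    exact (Set.finite_range _).subset hsub
  have h3 : Finite (commutator G) := inferInstance
  have h4 : Finite (G ⧸ commutator G) := h2
  exact Finite.of_subgroup_quotient (commutator G)

/-- solvability from a homomorphism whose kernel is cyclic modulo the centre -/
theorem solvable_of {G Γ : Type*} [Group G] [Group Γ] (hΓ : Group.IsSolvable Γ) (φ : G →* Γ)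
    (V : G ⧸ Subgroup.center G)
    (h : ∀ g : G, φ g = 1 → QuotientGroup.mk' (Subgroup.center G) g ∈ Subgroup.zpowers V) :
    Group.IsSolvable G := by
  set π := QuotientGroup.mk' (Subgroup.center G) with hπ
  have hcl : Subgroup.center G ≤ (Subgroup.zpowers V).comap π := by
    intro z hz
    rw [Subgroup.mem_comap]
    have : π z = 1 := by
      rw [hπ, ← MonoidHom.mem_ker, QuotientGroup.ker_mk']; exact hz
    rw [this]; exact one_mem _
  have s1 : Group.IsSolvable (Subgroup.center G) := by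
    apply Group.isSolvable_of_comm
    intro a b
    exact (Subgroup.mem_center_iff.mp b.2 a |> fun h => Subtype.ext h)
  have s2 : Group.IsSolvable (Subgroup.zpowers V) := by
    apply Group.isSolvable_of_comm
    rintro ⟨a, i, rfl⟩ ⟨b, j, rfl⟩
    apply Subtype.ext
    change V ^ i * V ^ j = V ^ j * V ^ i
    rw [← zpow_add, ← zpow_add, add_comm]
  have s3 : Group.IsSolvable ((Subgroup.zpowers V).comap π) := by
    refine Group.isSolvable_of_ker_le_range (Subgroup.inclusion hcl)
      (π.subgroupComap (Subgroup.zpowers V)) ?_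
    rintro ⟨g, hg⟩ hk
    rw [MonoidHom.mem_ker] at hk
    have h1 : π g = 1 := congrArg Subtype.val hk
    have h2 : g ∈ Subgroup.center G := by
      rw [← MonoidHom.mem_ker, hπ, QuotientGroup.ker_mk'] at h1; exact h1
    exact ⟨⟨g, h2⟩, rfl⟩
  refine Group.isSolvable_of_ker_le_range ((Subgroup.zpowers V).comap π).subtype φ ?_
  intro g hg
  rw [MonoidHom.mem_ker] at hg
  rw [Subgroup.range_subtype]
  exact h g hg

section main

variable {G : Type*} [Group G] {a b : G} {t k : ℕ} (hgen : Subgroup.closure {a, b} = ⊤)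
  (hbr : a * b * a = b * a * b)
  (hrel : (b ^ 4 * a ^ (4 * t + 1)) ^ 2 * a ^ (8 * t + 1) = (a * b * a) ^ 2)
include hgen hbr hrel

theorem rel_quot (hk : 1 ≤ k) (hm : 8 * t + 1 = 3 ^ k) :
    Rel (QuotientGroup.mk' (Subgroup.center G) a) (QuotientGroup.mk' (Subgroup.center G) b) t k := by
  set π := QuotientGroup.mk' (Subgroup.center G) with hπ
  have hone : ∀ g : G, g ∈ Subgroup.center G → π g = 1 := by
    intro g hg
    rw [hπ, ← MonoidHom.mem_ker, QuotientGroup.ker_mk']; exact hg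
  have hc := c_central hgen hbr hrel
  refine ⟨?_, hk, hm, ?_, ?_, ?_, ?_, ?_, ?_⟩
  · have h1 : (Subgroup.closure {a, b}).map π = ⊤ := by
      rw [hgen]; exact Subgroup.map_top_of_surjective π (QuotientGroup.mk'_surjective _)
    rw [MonoidHom.map_closure, Set.image_pair] at h1
    exact h1
  · rw [← map_pow]; exact hone _ hc
  · rw [← map_pow, bm_eq_am hbr hrel]; exact hone _ hc
  · rw [← map_mul, ← map_mul, ← map_mul, ← map_mul, hbr]
  · rw [← map_mul, ← map_mul, ← map_mul, ← pow_two]; exact hone _ (z_central hgen hbr)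
  · rw [← map_pow, ← map_pow, ← map_mul, ← map_mul, ← map_mul]
    apply hone
    have hα := alpha_central hgen hbr hrel
    generalize a ^ (4 * t + 1) = p at hα ⊢
    generalize b ^ 2 = q at hα ⊢
    have : (p * q * p) * (p * q * p) = p⁻¹ * (p ^ 2 * q) ^ 2 * p := by
      simp only [pow_two, mul_assoc, inv_mul_cancel_left]
    rw [this, mul_assoc, ← Subgroup.mem_center_iff.mp hα p, inv_mul_cancel_left]
    exact hα
  · rw [← map_pow, ← map_pow, ← map_mul, ← map_pow]
    exact hone _ (delta_central hgen hbr hrel)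

theorem abel_finite : Finite (Abelianization G) := by
  set x : Abelianization G := Abelianization.of a with hx
  set y : Abelianization G := Abelianization.of b with hy
  have h1 : x = y := by
    have := congrArg Abelianization.of hbr
    simp only [map_mul] at this
    rw [← hx, ← hy] at this
    have h2 : x * y * x = x * y * y := by rw [this, mul_comm y x]
    exact mul_left_cancel h2
  have h2 : x ^ (16 * t + 5) = 1 := by
    have := congrArg Abelianization.of hrel
    simp only [map_mul, map_pow] at this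
    rw [← hx, ← hy, ← h1] at this
    have e1 : (x ^ 4 * x ^ (4 * t + 1)) ^ 2 * x ^ (8 * t + 1) = x ^ (16 * t + 5) * x ^ 6 := by
      rw [← pow_add, ← pow_mul, ← pow_add, ← pow_add]; congr 1; ring
    have e2 : (x * x * x) ^ 2 = x ^ 6 := by
      rw [← pow_two, ← pow_succ, ← pow_mul]
    rw [e1, e2] at this
    exact mul_eq_right.mp this
  have h3 : Subgroup.zpowers x = ⊤ := by
    have h4 : (Subgroup.closure {a, b}).map (Abelianization.of (G := G)) = ⊤ := by
      rw [hgen]
      exact Subgroup.map_top_of_surjective _ (QuotientGroup.mk'_surjective _)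
    rw [MonoidHom.map_closure, Set.image_pair] at h4
    rw [← hx, ← hy, ← h1, Set.pair_eq_singleton, ← Subgroup.zpowers_eq_closure] at h4
    exact h4
  have h5 : IsOfFinOrder x := isOfFinOrder_iff_pow_eq_one.mpr ⟨16 * t + 5, by omega, h2⟩
  have h6 : (Subgroup.zpowers x : Set (Abelianization G)).Finite := h5.finite_zpowers
  rw [h3] at h6
  exact Set.finite_univ_iff.mp h6

theorem G_finite (hk : 1 ≤ k) (hm : 8 * t + 1 = 3 ^ k) : Finite G :=
  finite_of_center (rel_quot hgen hbr hrel hk hm).finite (abel_finite hgen hbr hrel)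

end main

end Pool.Agent.DefZero
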