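import Pool.Agent.DefZero.Fin

set_option autoImplicit false

namespace Pool.Agent.DefZero

open scoped commutatorElement

section sub

variable {R : Type*} [CommRing R]

/-- upper triangular matrices -/
def Bor (R : Type*) [CommRing R] : Subgroup (SL2 R) where
  carrier := {g | (g : Matrix (Fin 2) (Fin 2) R) 1 0 = 0}
  one_mem' := by simp
  mul_mem' := by
    intro g h hg hh
    obtain ⟨-, -, h3, -⟩ := sl2_mul g h
    simp only [Set.mem_ofPred_eq] at *
    rw [h3, hg, hh]; simp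
  inv_mem' := by
    intro g hg
    simp only [Set.mem_ofPred_eq] at *
    rw [Matrix.SpecialLinearGroup.SL2_inv_expl]
    simp [hg]

/-- diagonal matrices -/
def Dia (R : Type*) [CommRing R] : Subgroup (SL2 R) where
  carrier := {g | (g : Matrix (Fin 2) (Fin 2) R) 1 0 = 0 ∧ (g : Matrix (Fin 2) (Fin 2) R) 0 1 = 0}
  one_mem' := by simp
  mul_mem' := by
    intro g h hg hh
    obtain ⟨-, h2, h3, -⟩ := sl2_mul g h
    simp only [Set.mem_ofPred_eq] at *
    rw [h3, h2, hg.1, hg.2, hh.1, hh.2]; simp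
  inv_mem' := by
    intro g hg
    simp only [Set.mem_ofPred_eq] at *
    rw [Matrix.SpecialLinearGroup.SL2_inv_expl]
    simp [hg.1, hg.2]

lemma mem_Bor {g : SL2 R} : g ∈ Bor R ↔ (g : Matrix (Fin 2) (Fin 2) R) 1 0 = 0 := Iff.rfl

lemma mem_Dia {g : SL2 R} : g ∈ Dia R ↔ (g : Matrix (Fin 2) (Fin 2) R) 1 0 = 0 ∧
  (g : Matrix (Fin 2) (Fin 2) R) 0 1 = 0 := Iff.rfl

lemma Dia_le : Dia R ≤ Bor R := fun _ h => h.1

/-- commuting with both elementary matrices forces a diagonal matrix -/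
lemma dia_of_comm {g : SL2 R} (h1 : g * e 1 = e 1 * g) (h2 : g * f (-1) = f (-1) * g) :
    g ∈ Dia R := by
  have k1 : ((g * e 1 : SL2 R) : Matrix (Fin 2) (Fin 2) R) 0 0 =
    ((e 1 * g : SL2 R) : Matrix (Fin 2) (Fin 2) R) 0 0 := by rw [h1]
  have k2 : ((g * f (-1) : SL2 R) : Matrix (Fin 2) (Fin 2) R) 0 0 =
    ((f (-1) * g : SL2 R) : Matrix (Fin 2) (Fin 2) R) 0 0 := by rw [h2]
  obtain ⟨a1, -, -, -⟩ := sl2_mul g (e 1)
  obtain ⟨a2, -, -, -⟩ := sl2_mul (e 1) g
  obtain ⟨a3, -, -, -⟩ := sl2_mul g (f (-1))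
  obtain ⟨a4, -, -, -⟩ := sl2_mul (f (-1)) g
  rw [a1, a2] at k1
  rw [a3, a4] at k2
  simp only [e_coe, f_coe] at k1 k2
  simp at k1 k2
  exact ⟨k1, k2⟩

/-- the image of `D` -/
lemma D_img : ((e 1 * f (-1) * e 1 : SL2 R) : Matrix (Fin 2) (Fin 2) R) = !![0, 1; -1, 0] := by
  rw [Matrix.SpecialLinearGroup.coe_mul, Matrix.SpecialLinearGroup.coe_mul, e_coe, f_coe,
    Matrix.mul_fin_two, Matrix.mul_fin_two]
  ext i j
  fin_cases i <;> fin_cases j <;> simp

lemma D_img' : ((f (-1) * e 1 * f (-1) : SL2 R) : Matrix (Fin 2) (Fin 2) R) = !![0, 1; -1, 0] := by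
  rw [Matrix.SpecialLinearGroup.coe_mul, Matrix.SpecialLinearGroup.coe_mul, e_coe, f_coe,
    Matrix.mul_fin_two, Matrix.mul_fin_two]
  ext i j
  fin_cases i <;> fin_cases j <;> simp

lemma braid_img : (e 1 * f (-1) * e 1 : SL2 R) = f (-1) * e 1 * f (-1) := by
  apply Subtype.ext
  rw [D_img, D_img']

/-- the relation in `SL(2,R)` -/
lemma rel_img {t : ℕ} (ht : (8 * t + 1 : R) = 0) :
    ((f (-1) : SL2 R) ^ 4 * (e 1) ^ (4 * t + 1)) ^ 2 * (e 1) ^ (8 * t + 1) =
      (e 1 * f (-1) * e 1) ^ 2 := by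
  have h1 : (e (1 : R)) ^ (8 * t + 1) = 1 := by
    rw [e_pow]; push_cast; rw [mul_one, ht, e_zero]
  rw [h1, mul_one, e_pow, f_pow]
  apply Subtype.ext
  rw [pow_two, pow_two, Matrix.SpecialLinearGroup.coe_mul, Matrix.SpecialLinearGroup.coe_mul,
    Matrix.SpecialLinearGroup.coe_mul, D_img, e_coe, f_coe,
    Matrix.mul_fin_two, Matrix.mul_fin_two, Matrix.mul_fin_two]
  push_cast
  ext i j
  fin_cases i <;> fin_cases j <;> simp
  · linear_combination (-2 : R) * ht
  · linear_combination (-(4 * t + 1) * 2 : R) * ht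
  · linear_combination (8 : R) * ht
  · linear_combination (8 * (4 * t + 1) - 2 : R) * ht

lemma U_img {t : ℕ} (ht : (8 * t + 1 : R) = 0) :
    Rel.U (e (1 : R)) (f (-1)) t ∈ Dia R := by
  unfold Rel.U
  rw [e_pow, f_pow, mem_Dia, Matrix.SpecialLinearGroup.coe_mul, D_img,
    Matrix.SpecialLinearGroup.coe_mul, Matrix.SpecialLinearGroup.coe_mul, e_coe, f_coe,
    Matrix.mul_fin_two, Matrix.mul_fin_two, Matrix.mul_fin_two]
  push_cast
  constructor
  · simp
    linear_combination ht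
  · simp
    linear_combination (-1 : R) * ht

end sub

section main

variable {G : Type*} [Group G] {a b : G} {t k : ℕ} (hgen : Subgroup.closure {a, b} = ⊤)
  (hbr : a * b * a = b * a * b)
  (hrel : (b ^ 4 * a ^ (4 * t + 1)) ^ 2 * a ^ (8 * t + 1) = (a * b * a) ^ 2)
include hgen hbr hrel

theorem kernel (hk : 1 ≤ k) (hm : 8 * t + 1 = 3 ^ k) (φ : G →* SL2 (ZMod (3 ^ k)))
    (hφa : φ a = e 1) (hφb : φ b = f (-1)) (g : G) (hg : φ g = 1) :
    QuotientGroup.mk' (Subgroup.center G) g ∈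
      Subgroup.zpowers (QuotientGroup.mk' (Subgroup.center G) (Rel.U a b t)) := by
  have hrelq := rel_quot hgen hbr hrel hk hm
  set π := QuotientGroup.mk' (Subgroup.center G) with hπ
  have hone : ∀ g : G, π g = 1 ↔ g ∈ Subgroup.center G := by
    intro g
    rw [hπ, ← MonoidHom.mem_ker, QuotientGroup.ker_mk']
  have ht : (8 * t + 1 : ZMod (3 ^ k)) = 0 := by
    have h1 : ((8 * t + 1 : ℕ) : ZMod (3 ^ k)) = 0 := by
      rw [hm]; exact ZMod.natCast_self _
    push_cast at h1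
    exact h1
  have hnt : Nontrivial (ZMod (3 ^ k)) := by
    have : Fact (1 < 3 ^ k) := ⟨Nat.one_lt_pow (by omega) (by norm_num)⟩
    exact ZMod.nontrivial _
  have hπU : π (Rel.U a b t) = Rel.U (π a) (π b) t := by
    unfold Rel.U; simp only [map_mul, map_pow]
  have hφU : φ (Rel.U a b t) ∈ Dia (ZMod (3 ^ k)) := by
    have : φ (Rel.U a b t) = Rel.U (e 1) (f (-1)) t := by
      unfold Rel.U; simp only [map_mul, map_pow, hφa, hφb]
    rw [this]; exact U_img ht
  have hcen : ∀ z ∈ Subgroup.center G, φ z ∈ Dia (ZMod (3 ^ k)) := by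
    intro z hz
    apply dia_of_comm
    · rw [← hφa, ← map_mul, ← map_mul, Subgroup.mem_center_iff.mp hz a]
    · rw [← hφb, ← map_mul, ← map_mul, Subgroup.mem_center_iff.mp hz b]
  have heB : ∀ c, e c ∈ Bor (ZMod (3 ^ k)) := by
    intro c
    rw [mem_Bor, e_coe]; simp
  have hφD : φ (a * b * a) = e 1 * f (-1) * e 1 := by
    rw [map_mul, map_mul, hφa, hφb]
  -- decompose
  obtain ⟨β, hβ, i, hi⟩ := hrelq.dec_all (π g)
  obtain ⟨x, y, rfl⟩ := hrelq.B_form hβ
  rw [← hπU] at hi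
  -- show π g = β
  have key : π g = π a ^ x * π (Rel.U a b t) ^ y := by
    rcases hi with hi | ⟨-, hi⟩
    · exfalso
      -- g = ζ a^x U^y D a^i
      set r := a ^ x * (Rel.U a b t) ^ y * (a * b * a) * a ^ i with hr
      have h1 : π (g * r⁻¹) = 1 := by
        rw [map_mul, map_inv, hi, hr]; simp only [map_mul, map_zpow, mul_inv_cancel]
      have h2 := hcen _ ((hone _).mp h1)
      rw [map_mul, hg, one_mul, map_inv, inv_mem_iff] at h2
      have h3 := Dia_le h2
      rw [hr, map_mul, map_mul, map_mul, map_zpow, map_zpow, map_zpow, hφa, hφD] at h3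
      rw [e_zpow, e_zpow] at h3
      rw [Subgroup.mul_mem_cancel_right _ (heB _)] at h3
      have h4 : e ((x : ZMod (3 ^ k)) * 1) * (φ (Rel.U a b t)) ^ y ∈ Bor (ZMod (3 ^ k)) :=
        mul_mem (heB _) (zpow_mem (Dia_le hφU) _)
      rw [Subgroup.mul_mem_cancel_left _ h4, mem_Bor, D_img] at h3
      simp at h3
    · set r := a ^ x * (Rel.U a b t) ^ y * (a * b * a) * a ^ i * (a * b * a) with hr
      have h1 : π (g * r⁻¹) = 1 := by
        rw [map_mul, map_inv, hi, hr]; simp only [map_mul, map_zpow, mul_inv_cancel]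
      have h2 := hcen _ ((hone _).mp h1)
      rw [map_mul, hg, one_mul, map_inv, inv_mem_iff] at h2
      have h3 := Dia_le h2
      rw [hr, map_mul, map_mul, map_mul, map_mul, map_zpow, map_zpow, map_zpow, hφa, hφD] at h3
      rw [e_zpow, e_zpow] at h3
      have h4 : e ((x : ZMod (3 ^ k)) * 1) * (φ (Rel.U a b t)) ^ y ∈ Bor (ZMod (3 ^ k)) :=
        mul_mem (heB _) (zpow_mem (Dia_le hφU) _)
      have h5 : (i : ZMod (3 ^ k)) = 0 := by
        have hDc := D_img (R := ZMod (3 ^ k))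
        generalize (e 1 * f (-1) * e 1 : SL2 (ZMod (3 ^ k))) = Dm at h3 hDc
        rw [mul_assoc, mul_assoc, Subgroup.mul_mem_cancel_left _ h4] at h3
        rw [mem_Bor, Matrix.SpecialLinearGroup.coe_mul, Matrix.SpecialLinearGroup.coe_mul, hDc,
          e_coe, Matrix.mul_fin_two, Matrix.mul_fin_two] at h3
        simpa using h3
      have h6 : (3 : ℤ) ^ k ∣ i - 0 := by
        rw [ZMod.intCast_zmod_eq_zero_iff_dvd] at h5
        push_cast at h5
        simpa using h5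
      have h7 := hrelq.a_zpow h6
      rw [zpow_zero] at h7
      rw [hi, h7]
      rw [mul_one, mul_assoc, hrelq.hD, mul_one]
  -- show a^x trivial
  set r := a ^ x * (Rel.U a b t) ^ y with hr
  have h1 : π (g * r⁻¹) = 1 := by
    rw [map_mul, map_inv, key, hr]; simp only [map_mul, map_zpow, mul_inv_cancel]
  have h2 := hcen _ ((hone _).mp h1)
  rw [map_mul, hg, one_mul, map_inv, inv_mem_iff, hr, map_mul, map_zpow, map_zpow,
    Subgroup.mul_mem_cancel_right _ (zpow_mem hφU _), hφa, e_zpow] at h2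
  have h5 : (x : ZMod (3 ^ k)) = 0 := by
    have := h2.2
    rw [e_coe] at this
    simpa using this
  have h6 : (3 : ℤ) ^ k ∣ x - 0 := by
    rw [ZMod.intCast_zmod_eq_zero_iff_dvd] at h5
    push_cast at h5
    simpa using h5
  have h7 := hrelq.a_zpow h6
  rw [zpow_zero] at h7
  rw [key, h7, one_mul]
  exact ⟨y, rfl⟩

theorem G_solvable (hk : 1 ≤ k) (hm : 8 * t + 1 = 3 ^ k) (φ : G →* SL2 (ZMod (3 ^ k)))
    (hφa : φ a = e 1) (hφb : φ b = f (-1)) : Group.IsSolvable G :=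
  solvable_of (solvK hk) φ _ (kernel hgen hbr hrel hk hm φ hφa hφb)

omit hgen hbr hrel in
theorem G_derived (φ : G →* SL2 (ZMod (3 ^ k)))
    (hφa : φ a = e 1) (hφb : φ b = f (-1)) (d : ℕ) (hd : 3 ^ d < k) :
    derivedSeries G d ≠ ⊥ := by
  intro hbot
  have h := series (fun i => (derivedSeries G i).map φ) ?_ ?_ ?_ d
  · have h1 := h.1
    rw [hbot, Subgroup.map_bot, Subgroup.mem_bot] at h1
    exact e_ne_one hd h1
  · refine ⟨a ^ 3, by simp, ?_⟩
    rw [map_pow, hφa, e_pow]; norm_num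
  · refine ⟨b⁻¹ ^ 3, by simp, ?_⟩
    rw [map_pow, map_inv, hφb, f_inv, f_pow]; norm_num
  · intro i
    rw [derivedSeries_succ, Subgroup.map_commutator]

end main

end Pool.Agent.DefZero
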