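import Mathlib

set_option autoImplicit false

namespace Pool.Agent.DefZero

open scoped commutatorElement

abbrev SL2 (R : Type*) [CommRing R] := Matrix.SpecialLinearGroup (Fin 2) R

variable {R : Type*} [CommRing R]

/-- upper unipotent -/
def e (c : R) : SL2 R := ⟨!![1, c; 0, 1], by simp [Matrix.det_fin_two]⟩

/-- lower unipotent -/
def f (c : R) : SL2 R := ⟨!![1, 0; c, 1], by simp [Matrix.det_fin_two]⟩

/-- diagonal -/
def dg (u v : R) (h : u * v = 1) : SL2 R := ⟨!![u, 0; 0, v], by simp [Matrix.det_fin_two, h]⟩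

lemma e_coe (c : R) : ((e c : SL2 R) : Matrix (Fin 2) (Fin 2) R) = !![1, c; 0, 1] := rfl

lemma f_coe (c : R) : ((f c : SL2 R) : Matrix (Fin 2) (Fin 2) R) = !![1, 0; c, 1] := rfl

lemma dg_coe (u v : R) (h : u * v = 1) :
    ((dg u v h : SL2 R) : Matrix (Fin 2) (Fin 2) R) = !![u, 0; 0, v] := rfl

lemma e_mul (c d : R) : e c * e d = e (c + d) := by
  apply Subtype.ext
  rw [Matrix.SpecialLinearGroup.coe_mul, e_coe, e_coe, e_coe, Matrix.mul_fin_two]
  ext i j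
  fin_cases i <;> fin_cases j <;> simp [add_comm]

lemma f_mul (c d : R) : f c * f d = f (c + d) := by
  apply Subtype.ext
  rw [Matrix.SpecialLinearGroup.coe_mul, f_coe, f_coe, f_coe, Matrix.mul_fin_two]
  ext i j
  fin_cases i <;> fin_cases j <;> simp

lemma e_zero : e (0 : R) = 1 := by
  apply Subtype.ext
  simp [e, Matrix.one_fin_two]

lemma f_zero : f (0 : R) = 1 := by
  apply Subtype.ext
  simp [f, Matrix.one_fin_two]

lemma e_pow (c : R) (n : ℕ) : (e c) ^ n = e (n * c) := by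
  induction n with
  | zero => simp [e_zero]
  | succ n ih => rw [pow_succ, ih, e_mul]; congr 1; push_cast; ring

lemma f_pow (c : R) (n : ℕ) : (f c) ^ n = f (n * c) := by
  induction n with
  | zero => simp [f_zero]
  | succ n ih => rw [pow_succ, ih, f_mul]; congr 1; push_cast; ring

lemma e_inv (c : R) : (e c)⁻¹ = e (-c) := by
  rw [inv_eq_iff_mul_eq_one, e_mul]; simp [e_zero]

lemma f_inv (c : R) : (f c)⁻¹ = f (-c) := by
  rw [inv_eq_iff_mul_eq_one, f_mul]; simp [f_zero]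

lemma e_zpow (c : R) (n : ℤ) : (e c) ^ n = e (n * c) := by
  obtain ⟨m, rfl | rfl⟩ := n.eq_nat_or_neg
  · rw [zpow_natCast, e_pow]; simp
  · rw [_root_.zpow_neg, zpow_natCast, e_pow, e_inv]; simp

lemma e_inj {c d : R} (h : e c = e d) : c = d := by
  have := congrArg (fun (X : SL2 R) => (X : Matrix (Fin 2) (Fin 2) R) 0 1) h
  simpa [e] using this

lemma dg_e (u v c : R) (h : u * v = 1) : dg u v h * e c * (dg u v h)⁻¹ = e (u ^ 2 * c) := by
  rw [mul_inv_eq_iff_eq_mul]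
  apply Subtype.ext
  rw [Matrix.SpecialLinearGroup.coe_mul, Matrix.SpecialLinearGroup.coe_mul, e_coe, e_coe, dg_coe,
    Matrix.mul_fin_two, Matrix.mul_fin_two]
  ext i j
  fin_cases i <;> fin_cases j <;> simp
  linear_combination (-u * c) * h

lemma dg_f (u v c : R) (h : u * v = 1) : dg u v h * f c * (dg u v h)⁻¹ = f (v ^ 2 * c) := by
  rw [mul_inv_eq_iff_eq_mul]
  apply Subtype.ext
  rw [Matrix.SpecialLinearGroup.coe_mul, Matrix.SpecialLinearGroup.coe_mul, f_coe, f_coe, dg_coe,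
    Matrix.mul_fin_two, Matrix.mul_fin_two]
  ext i j
  fin_cases i <;> fin_cases j <;> simp
  linear_combination (-v * c) * h

lemma dg_eq (s v : R) (h : (1 + s ^ 2) * v = 1) :
    dg (1 + s ^ 2) v h = e s * f s * e (-s * v) * f (-s * (1 + s ^ 2)) := by
  apply Subtype.ext
  rw [Matrix.SpecialLinearGroup.coe_mul, Matrix.SpecialLinearGroup.coe_mul,
    Matrix.SpecialLinearGroup.coe_mul, e_coe, e_coe, f_coe, f_coe, dg_coe,
    Matrix.mul_fin_two, Matrix.mul_fin_two, Matrix.mul_fin_two]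
  ext i j
  fin_cases i <;> fin_cases j <;> simp
  · linear_combination (-(s ^ 2 * (1 + s ^ 2))) * h
  · linear_combination (s) * h
  · linear_combination (-s ^ 3) * h
  · linear_combination h

/-- If a subgroup contains `e s` and `f s`, `s = 3^j` in `ZMod (3^k)`, then its commutator subgroup
contains `e (s^3)` and `f (s^3)`. -/
lemma step {k : ℕ} (N : Subgroup (SL2 (ZMod (3 ^ k)))) (j : ℕ) (hj : 1 ≤ j)
    (he : e ((3 : ZMod (3 ^ k)) ^ j) ∈ N) (hf : f ((3 : ZMod (3 ^ k)) ^ j) ∈ N) :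
    e ((3 : ZMod (3 ^ k)) ^ (3 * j)) ∈ ⁅N, N⁆ ∧ f ((3 : ZMod (3 ^ k)) ^ (3 * j)) ∈ ⁅N, N⁆ := by
  set s : ZMod (3 ^ k) := 3 ^ j with hs
  have mulE : ∀ (M : Subgroup (SL2 (ZMod (3 ^ k)))) (x c : ZMod (3 ^ k)), e x ∈ M → e (c * x) ∈ M := by
    intro M x c hx
    have : e (c * x) = (e x) ^ c.val := by rw [e_pow, ZMod.natCast_zmod_val]
    rw [this]; exact pow_mem hx _
  have mulF : ∀ (M : Subgroup (SL2 (ZMod (3 ^ k)))) (x c : ZMod (3 ^ k)), f x ∈ M → f (c * x) ∈ M := by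
    intro M x c hx
    have : f (c * x) = (f x) ^ c.val := by rw [f_pow, ZMod.natCast_zmod_val]
    rw [this]; exact pow_mem hx _
  have hunit : ∀ n : ℕ, ¬ 3 ∣ n → ∃ v : ZMod (3 ^ k), (n : ZMod (3 ^ k)) * v = 1 := by
    intro n hn
    have hc : Nat.Coprime n (3 ^ k) := by
      apply Nat.Coprime.pow_right
      exact ((Nat.Prime.coprime_iff_not_dvd Nat.prime_three).mpr hn).symm
    have := (ZMod.isUnit_iff_coprime n (3 ^ k)).mpr hc
    obtain ⟨v, hv⟩ := this.exists_right_inv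
    exact ⟨v, hv⟩
  obtain ⟨j', rfl⟩ : ∃ j', j = j' + 1 := ⟨j - 1, by omega⟩
  obtain ⟨v, hv⟩ := hunit (1 + (3 ^ (j' + 1)) ^ 2) (by
    intro h
    have : 3 ∣ (3 ^ (j' + 1)) ^ 2 := by
      rw [← pow_mul]; exact dvd_pow_self 3 (by omega)
    have h1 := (Nat.dvd_add_left this).mp h
    omega)
  obtain ⟨w, hw⟩ := hunit (2 + (3 ^ (j' + 1)) ^ 2) (by
    intro h
    have : 3 ∣ (3 ^ (j' + 1)) ^ 2 := by
      rw [← pow_mul]; exact dvd_pow_self 3 (by omega)
    have h1 := (Nat.dvd_add_left this).mp h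
    omega)
  have hv' : (1 + s ^ 2) * v = 1 := by push_cast at hv; rw [hs]; exact hv
  have hw' : (2 + s ^ 2) * w = 1 := by push_cast at hw; rw [hs]; exact hw
  have hd : dg (1 + s ^ 2) v hv' ∈ N := by
    rw [dg_eq]
    refine mul_mem (mul_mem (mul_mem he hf) ?_) ?_
    · have := mulE N s (-v) he
      convert this using 2; ring
    · have := mulF N s (-(1 + s ^ 2)) hf
      convert this using 2; ring
  constructor
  · have h1 : ⁅dg (1 + s ^ 2) v hv', e s⁆ ∈ ⁅N, N⁆ := Subgroup.commutator_mem_commutator hd he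
    rw [commutatorElement_def, dg_e, e_inv, e_mul] at h1
    have h2 := mulE _ _ w h1
    convert h2 using 2
    have : (3 : ZMod (3 ^ k)) ^ (3 * (j' + 1)) = s ^ 3 := by rw [hs, ← pow_mul]; congr 1; ring
    rw [this]
    linear_combination (-s ^ 3) * hw'
  · have h1 : ⁅dg (1 + s ^ 2) v hv', f s⁆ ∈ ⁅N, N⁆ := Subgroup.commutator_mem_commutator hd hf
    rw [commutatorElement_def, dg_f, f_inv, f_mul] at h1
    have h2 := mulF _ _ (-w * (1 + s ^ 2) ^ 2) h1
    convert h2 using 2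
    have : (3 : ZMod (3 ^ k)) ^ (3 * (j' + 1)) = s ^ 3 := by rw [hs, ← pow_mul]; congr 1; ring
    rw [this]
    linear_combination (-s ^ 3) * hw' + w * s * ((1 + s ^ 2) * v + 1) * hv'

lemma series {k : ℕ} (N : ℕ → Subgroup (SL2 (ZMod (3 ^ k)))) (h0 : e 3 ∈ N 0) (h0' : f 3 ∈ N 0)
    (hN : ∀ i, N (i + 1) = ⁅N i, N i⁆) (i : ℕ) :
    e ((3 : ZMod (3 ^ k)) ^ (3 ^ i)) ∈ N i ∧ f ((3 : ZMod (3 ^ k)) ^ (3 ^ i)) ∈ N i := by
  induction i with
  | zero => simpa using ⟨h0, h0'⟩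
  | succ i ih =>
    rw [hN, pow_succ' 3 i]
    exact step (N i) (3 ^ i) (Nat.one_le_pow _ _ (by norm_num)) ih.1 ih.2

lemma e_ne_one {k j : ℕ} (hj : j < k) : e ((3 : ZMod (3 ^ k)) ^ j) ≠ 1 := by
  intro h
  rw [← e_zero] at h
  have h1 := e_inj h
  have h2 : ((3 ^ j : ℕ) : ZMod (3 ^ k)) = 0 := by push_cast; exact h1
  rw [ZMod.natCast_eq_zero_iff] at h2
  have h3 := (Nat.pow_dvd_pow_iff_le_right (by norm_num : 1 < 3)).mp h2
  omega

end Pool.Agent.DefZero
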